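import Pool.Agent.Run7.h570.GH.Iface

/-!
# Graph hypersurfaces: piece PStart

The complement of a graph hypersurface with a vertex joined to all the others is the family of the
invertible symmetric matrices with the pattern of the rest of the graph.
-/

set_option autoImplicit false
set_option linter.unusedSectionVars false

open CategoryTheory AlgebraicGeometry MvPolynomial Pool.Agent.Y116.UV Pool.Agent.Z125.UN
  Pool.Agent.Q282.UZ Run7.h570.GH

namespace Run7.h232.GH

section away

variable {R : Type} [CommRing R] {σ : Type}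

/-- no relations -/
def noRel (R : Type) [CommRing R] (σ : Type) (k : Empty) : MvPolynomial σ R := k.elim

lemma aeval_algebraMap_X (w p : MvPolynomial σ R) :
    aeval (fun s => algebraMap (MvPolynomial σ R) (Localization.Away w) (X s)) p =
      algebraMap (MvPolynomial σ R) (Localization.Away w) p := by
  have h : aeval (fun s => algebraMap (MvPolynomial σ R) (Localization.Away w) (X s)) =
      IsScalarTower.toAlgHom R (MvPolynomial σ R) (Localization.Away w) := by
    apply MvPolynomial.algHom_ext
    intro s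
    rw [aeval_X]
    rfl
  rw [h]
  rfl

/-- from the localization -/
noncomputable def awayF (w : MvPolynomial σ R) : Localization.Away w →ₐ[R] Pc (noRel R σ) w :=
  IsLocalization.liftAlgHom (M := Submonoid.powers w) (f := pc (noRel R σ) w) (by
    rintro ⟨_, k, rfl⟩
    change IsUnit (pc (noRel R σ) w (w ^ k))
    rw [map_pow]
    exact (pc_unit (noRel R σ) w).pow k)

lemma awayF_mk (w p : MvPolynomial σ R) :
    awayF w (algebraMap (MvPolynomial σ R) (Localization.Away w) p) = pc (noRel R σ) w p := by
  rw [awayF, IsLocalization.liftAlgHom_apply, IsLocalization.lift_eq]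
  rfl

/-- to the localization -/
noncomputable def awayG (w : MvPolynomial σ R) : Pc (noRel R σ) w →ₐ[R] Localization.Away w :=
  pcLift (noRel R σ) w (fun s => algebraMap (MvPolynomial σ R) (Localization.Away w) (X s))
    (fun k => k.elim) (by
      rw [aeval_algebraMap_X]
      exact IsLocalization.map_units (M := Submonoid.powers w) (Localization.Away w)
        ⟨_, Submonoid.mem_powers _⟩)

lemma awayG_pv (w : MvPolynomial σ R) (s : σ) : awayG w (pv (noRel R σ) w s) =
    algebraMap (MvPolynomial σ R) (Localization.Away w) (X s) := by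
  rw [awayG, pcLift_pv]

/-- a localization of the ring of polynomials has a presentation without relations -/
noncomputable def awayE (w : MvPolynomial σ R) : Localization.Away w ≃ₐ[R] Pc (noRel R σ) w :=
  AlgEquiv.ofAlgHom (awayF w) (awayG w)
    (by
      apply pc_ext
      intro s
      rw [AlgHom.comp_apply, awayG_pv, awayF_mk]
      rfl)
    (by
      apply IsLocalization.algHom_ext (Submonoid.powers w)
      apply MvPolynomial.algHom_ext
      intro s
      change awayG w (awayF w (algebraMap _ _ (X s))) = algebraMap _ _ (X s)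
      rw [awayF_mk]
      exact awayG_pv w s)

lemma finiteType_away [Finite σ] (w : MvPolynomial σ R) :
    Algebra.FiniteType R (Localization.Away w) := by
  have h : Algebra.FiniteType (MvPolynomial σ R) (Localization.Away w) := inferInstance
  exact Algebra.FiniteType.trans (S := MvPolynomial σ R) inferInstance h

end away

section graph

variable {V : Type} {n : ℕ}

/-- one more vertex, joined to all the others -/
def cone (G : SimpleGraph V) (e : V ≃ Fin n) : SimpleGraph (Fin (n + 1)) where
  Adj a b := Fin.cases (motive := fun _ => Prop)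
    (Fin.cases (motive := fun _ => Prop) False (fun _ => True) b)
    (fun i => Fin.cases (motive := fun _ => Prop) True (fun j => G.Adj (e.symm i) (e.symm j)) b) a
  symm := ⟨by
    intro a b
    refine Fin.cases ?_ (fun i => ?_) a <;> refine Fin.cases ?_ (fun j => ?_) b <;>
      simp only [Fin.cases_zero, Fin.cases_succ]
    · exact id
    · exact id
    · exact id
    · exact fun h => G.adj_symm h⟩
  loopless := ⟨by
    intro a
    refine Fin.cases ?_ (fun i => ?_) a <;> simp only [Fin.cases_zero, Fin.cases_succ]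
    · exact id
    · exact G.irrefl⟩

variable (G : SimpleGraph V) (e : V ≃ Fin n)

lemma cone_zero_zero : ¬ (cone G e).Adj 0 0 := (cone G e).irrefl

lemma cone_zero_succ (i : Fin n) : (cone G e).Adj 0 i.succ := trivial

lemma cone_succ_zero (i : Fin n) : (cone G e).Adj i.succ 0 := trivial

lemma cone_succ_succ (i j : Fin n) :
    (cone G e).Adj i.succ j.succ ↔ G.Adj (e.symm i) (e.symm j) := Iff.rfl

variable (R : Type) [CommRing R]

lemma ev_adj {m : ℕ} (Γ : SimpleGraph (Fin m)) {u v : Fin m} (h : Γ.Adj u v) :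
    ev R Γ u v = X ⟨s(u, v), h⟩ := by
  unfold ev
  rw [dif_pos h]

lemma ev_not {m : ℕ} (Γ : SimpleGraph (Fin m)) {u v : Fin m} (h : ¬ Γ.Adj u v) :
    ev R Γ u v = 0 := by
  unfold ev
  rw [dif_neg h]

lemma ev_self {m : ℕ} (Γ : SimpleGraph (Fin m)) (u : Fin m) : ev R Γ u u = 0 :=
  ev_not R Γ Γ.irrefl

lemma ev_symm {m : ℕ} (Γ : SimpleGraph (Fin m)) (u v : Fin m) : ev R Γ u v = ev R Γ v u := by
  by_cases h : Γ.Adj u v
  · rw [ev_adj R Γ h, ev_adj R Γ h.symm]
    congr 1
    exact Subtype.ext Sym2.eq_swap
  · rw [ev_not R Γ h, ev_not R Γ (fun h' => h h'.symm)]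

variable [Fintype V] [DecidableEq V]

/-- the entries of the Laplace matrix -/
noncomputable def lap (i j : V) : MvPolynomial (cone G e).edgeSet R :=
  if i = j then ∑ v, ev R (cone G e) (e i).succ v else - ev R (cone G e) (e i).succ (e j).succ

lemma lap_symm (i j : V) : lap G e R i j = lap G e R j i := by
  unfold lap
  by_cases h : i = j
  · subst h
    rfl
  · rw [if_neg h, if_neg (Ne.symm h), ev_symm]

lemma kirch_eq : kirch R (cone G e) = Matrix.det (Matrix.of fun i j : V => lap G e R i j) := by
  unfold kirch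
  rw [← Matrix.det_submatrix_equiv_self e]
  congr 1
  ext i j
  simp only [Matrix.submatrix_apply, Matrix.of_apply, lap, e.injective.eq_iff]

/-- the row sums of the Laplace matrix -/
lemma lap_sum (i : V) : ∑ j, lap G e R i j = ev R (cone G e) (e i).succ 0 := by
  have h : ∀ j, lap G e R i j = (if i = j then ∑ v, ev R (cone G e) (e i).succ v else 0) -
      ev R (cone G e) (e i).succ (e j).succ := by
    intro j
    unfold lap
    by_cases h : i = j
    · subst h
      rw [if_pos rfl, if_pos rfl, ev_self, sub_zero]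
    · rw [if_neg h, if_neg h, zero_sub]
  rw [Finset.sum_congr rfl fun j _ => h j, Finset.sum_sub_distrib, Finset.sum_ite_eq,
    if_pos (Finset.mem_univ _), Fin.sum_univ_succ,
    e.sum_comp fun k => ev R (cone G e) (e i).succ k.succ]
  ring

/-- the sum of the entries of a row -/
noncomputable def row (i : V) : MvPolynomial ((V × V) ⊕ (Fin 0 × V)) R :=
  ∑ j : V, X (Sum.inl (i, j))

/-- the variables of the edges -/
noncomputable def gp (a b : Fin (n + 1)) : MvPolynomial ((V × V) ⊕ (Fin 0 × V)) R :=
  Fin.cases (motive := fun _ => MvPolynomial ((V × V) ⊕ (Fin 0 × V)) R)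
    (Fin.cases (motive := fun _ => MvPolynomial ((V × V) ⊕ (Fin 0 × V)) R) 0
      (fun j => row R (e.symm j)) b)
    (fun i => Fin.cases (motive := fun _ => MvPolynomial ((V × V) ⊕ (Fin 0 × V)) R)
      (row R (e.symm i)) (fun j => - X (Sum.inl (e.symm i, e.symm j))) b) a

omit [DecidableEq V] in
lemma gp_zero_succ (j : Fin n) : gp e R 0 j.succ = row R (e.symm j) := rfl

omit [DecidableEq V] in
lemma gp_succ_zero (j : Fin n) : gp e R j.succ 0 = row R (e.symm j) := rfl

omit [DecidableEq V] in
lemma gp_succ_succ (i j : Fin n) : gp e R i.succ j.succ = - X (Sum.inl (e.symm i, e.symm j)) := rfl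

variable {K : Type} [Field K] [Algebra R K]

/-- from the variables of the edges to the matrix -/
noncomputable def ff (x : (cone G e).edgeSet → K) (t : (V × V) ⊕ (Fin 0 × V)) : K :=
  Sum.elim (fun p => aeval x (lap G e R p.1 p.2)) (fun p => p.1.elim0) t

/-- from the matrix to the variables of the edges -/
noncomputable def gg (y : (V × V) ⊕ (Fin 0 × V) → K) (s : (cone G e).edgeSet) : K :=
  aeval y (gp e R (Quot.out s.1).1 (Quot.out s.1).2)

lemma mt_ff (x : (cone G e).edgeSet → K) :
    (mt (ff G e R x)).det = aeval x (kirch R (cone G e)) := by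
  rw [kirch_eq, AlgHom.map_det]
  congr 1

lemma aeval_gp (x : (cone G e).edgeSet → K) (a b : Fin (n + 1)) (h : (cone G e).Adj a b) :
    aeval (ff G e R x) (gp e R a b) = aeval x (ev R (cone G e) a b) := by
  have hrow : ∀ i : V, aeval (ff G e R x) (row R i : MvPolynomial ((V × V) ⊕ (Fin 0 × V)) R) =
      aeval x (ev R (cone G e) (e i).succ 0) := by
    intro i
    rw [← lap_sum, row, map_sum, map_sum]
    refine Finset.sum_congr rfl fun j _ => ?_
    rw [aeval_X]
    rfl
  revert h
  refine Fin.cases ?_ (fun i => ?_) a <;> refine Fin.cases ?_ (fun j => ?_) b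
  · intro h
    exact absurd h (cone_zero_zero G e)
  · intro _
    rw [gp_zero_succ, hrow, ev_symm, e.apply_symm_apply]
  · intro _
    rw [gp_succ_zero, hrow, e.apply_symm_apply]
  · intro h
    have hij : e.symm i ≠ e.symm j := by
      intro h'
      rw [cone_succ_succ, h'] at h
      exact G.irrefl h
    rw [gp_succ_succ, map_neg, aeval_X]
    change - aeval x (lap G e R (e.symm i) (e.symm j)) = _
    rw [lap, if_neg hij, map_neg, neg_neg, e.apply_symm_apply, e.apply_symm_apply]

lemma gg_ff (x : (cone G e).edgeSet → K) : gg G e R (ff G e R x) = x := by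
  funext s
  have h1 : s((Quot.out s.1).1, (Quot.out s.1).2) = s.1 := Quot.out_eq s.1
  have h2 : (cone G e).Adj (Quot.out s.1).1 (Quot.out s.1).2 := by
    rw [← SimpleGraph.mem_edgeSet, h1]
    exact s.2
  rw [gg, aeval_gp G e R x _ _ h2, ev_adj R _ h2, aeval_X]
  congr 1
  exact Subtype.ext h1

variable {y : (V × V) ⊕ (Fin 0 × V) → K}

omit [Fintype V] [DecidableEq V] in
lemma aeval_gp_symm [Fintype V] (hy : Pat G (mt y)) (a b : Fin (n + 1)) :
    aeval y (gp e R a b) = aeval y (gp e R b a) := by
  refine Fin.cases ?_ (fun i => ?_) a <;> refine Fin.cases ?_ (fun j => ?_) b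
  · rfl
  · rfl
  · rfl
  · rw [gp_succ_succ, gp_succ_succ, map_neg, map_neg, aeval_X, aeval_X]
    exact congrArg Neg.neg (hy.1 (e.symm i) (e.symm j))

lemma aeval_ev (hy : Pat G (mt y)) (a b : Fin (n + 1)) (hab : a ≠ b) :
    aeval (gg G e R y) (ev R (cone G e) a b) = aeval y (gp e R a b) := by
  by_cases h : (cone G e).Adj a b
  · rw [ev_adj R _ h, aeval_X, gg]
    have h1 : s((Quot.out s(a, b)).1, (Quot.out s(a, b)).2) = s(a, b) := Quot.out_eq s(a, b)
    rcases Sym2.eq_iff.mp h1 with ⟨h2, h3⟩ | ⟨h2, h3⟩
    · rw [h2, h3]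
    · rw [h2, h3]
      exact aeval_gp_symm G e R hy b a
  · rw [ev_not R _ h, map_zero]
    revert h hab
    refine Fin.cases ?_ (fun i => ?_) a <;> refine Fin.cases ?_ (fun j => ?_) b
    · intro h' _
      exact absurd rfl h'
    · intro _ h
      exact absurd (cone_zero_succ G e j) h
    · intro _ h
      exact absurd (cone_succ_zero G e i) h
    · intro hij h
      rw [gp_succ_succ, map_neg, aeval_X]
      have h4 : mt y (e.symm i) (e.symm j) = 0 := by
        apply hy.2
        · intro h'
          exact hij (congrArg Fin.succ (e.symm.injective h'))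
        · exact h
      change 0 = - mt y (e.symm i) (e.symm j)
      rw [h4, neg_zero]

lemma ff_gg (hy : Pat G (mt y)) : ff G e R (gg G e R y) = y := by
  funext t
  rcases t with ⟨i, j⟩ | ⟨a, _⟩
  · change aeval (gg G e R y) (lap G e R i j) = y (Sum.inl (i, j))
    have hev : ∀ j : V, i ≠ j →
        aeval (gg G e R y) (ev R (cone G e) (e i).succ (e j).succ) = - y (Sum.inl (i, j)) := by
      intro j hij
      rw [aeval_ev G e R hy _ _ (fun h => hij (e.injective (Fin.succ_injective _ h))),
        gp_succ_succ, map_neg, aeval_X, e.symm_apply_apply, e.symm_apply_apply]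
    by_cases hij : i = j
    · subst hij
      have h1 : ∑ v, ev R (cone G e) (e i).succ v = ev R (cone G e) (e i).succ 0 +
          ∑ j : V, ev R (cone G e) (e i).succ (e j).succ := by
        rw [Fin.sum_univ_succ, e.sum_comp fun k => ev R (cone G e) (e i).succ k.succ]
      rw [lap, if_pos rfl, h1, map_add, map_sum, aeval_ev G e R hy _ _ (Fin.succ_ne_zero _),
        gp_succ_zero, row, map_sum, ← Finset.sum_add_distrib, e.symm_apply_apply,
        Finset.sum_eq_single i]
      · rw [ev_self, map_zero, add_zero, aeval_X]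
      · intro j _ hj
        rw [hev j (Ne.symm hj), aeval_X, add_neg_cancel]
      · intro h
        exact absurd (Finset.mem_univ _) h
    · rw [lap, if_neg hij, map_neg, hev j hij, neg_neg]
  · exact a.elim0

end graph

section target

variable {R : Type} [CommRing R] {V : Type} [Fintype V] [DecidableEq V]

lemma ind_zero {K : Type} [Field K] (C : Fin 0 → V) : (ind C : Matrix V V K) = 0 := by
  classical
  unfold ind
  rw [Matrix.diagonal_eq_zero]
  funext l
  rw [if_neg]
  · rfl
  · rintro ⟨a, _⟩
    exact a.elim0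

lemma flag_iff (G : SimpleGraph V) (C : Fin 0 → V) (τ : V → ℕ) (K : Type) [Field K] [Algebra R K]
    (x : (V × V) ⊕ (Fin 0 × V) → K) :
    FlagFam R G C τ K x ↔ Pat G (mt x) ∧ (mt x).det ≠ 0 := by
  unfold FlagFam Ker
  rw [ind_zero, add_zero]
  constructor
  · rintro ⟨⟨h1, _, _, h2⟩, _⟩
    exact ⟨h1, h2⟩
  · rintro ⟨h1, h2⟩
    exact ⟨⟨h1, fun a => a.elim0, fun a => a.elim0, h2⟩, fun a => a.elim0, fun a => a.elim0⟩

open Classical in
/-- the relations -/
noncomputable def rels (R : Type) [CommRing R] (G : SimpleGraph V) (k : (V × V) ⊕ (V × V)) :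
    MvPolynomial ((V × V) ⊕ (Fin 0 × V)) R :=
  Sum.elim (fun p => X (Sum.inl (p.1, p.2)) - X (Sum.inl (p.2, p.1)))
    (fun p => if p.1 ≠ p.2 ∧ ¬ G.Adj p.1 p.2 then X (Sum.inl (p.1, p.2)) else 0) k

/-- the determinant -/
noncomputable def dt (R : Type) [CommRing R] (V : Type) [Fintype V] [DecidableEq V] :
    MvPolynomial ((V × V) ⊕ (Fin 0 × V)) R :=
  Matrix.det (Matrix.of fun i j : V => (X (Sum.inl (i, j)) : MvPolynomial ((V × V) ⊕ (Fin 0 × V)) R))

lemma aeval_dt (K : Type) [Field K] [Algebra R K] (x : (V × V) ⊕ (Fin 0 × V) → K) :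
    aeval x (dt R V) = (mt x).det := by
  rw [dt, AlgHom.map_det]
  congr 1
  ext i j
  change aeval x (X (Sum.inl (i, j)) : MvPolynomial ((V × V) ⊕ (Fin 0 × V)) R) = _
  rw [aeval_X]
  rfl

lemma rels_iff (G : SimpleGraph V) (K : Type) [Field K] [Algebra R K]
    (x : (V × V) ⊕ (Fin 0 × V) → K) : (∀ k, aeval x (rels R G k) = 0) ↔ Pat G (mt x) := by
  classical
  constructor
  · intro h
    constructor
    · intro i j
      have h1 := h (Sum.inl (i, j))
      simp only [rels, Sum.elim_inl, map_sub, aeval_X] at h1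
      exact sub_eq_zero.mp h1
    · intro i j hij hG
      have h1 := h (Sum.inr (i, j))
      simp only [rels, Sum.elim_inr] at h1
      rw [if_pos ⟨hij, hG⟩, aeval_X] at h1
      exact h1
  · rintro ⟨h1, h2⟩ (⟨i, j⟩ | ⟨i, j⟩)
    · simp only [rels, Sum.elim_inl, map_sub, aeval_X]
      exact sub_eq_zero.mpr (h1 i j)
    · simp only [rels, Sum.elim_inr]
      by_cases h : i ≠ j ∧ ¬ G.Adj i j
      · rw [if_pos h, aeval_X]
        exact h2 i j h.1 h.2
      · rw [if_neg h, map_zero]

lemma is_flag (G : SimpleGraph V) (C : Fin 0 → V) (τ : V → ℕ) :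
    Is (FlagFam R G C τ) (rels R G) (dt R V) := by
  intro K _ _ x
  rw [flag_iff, rels_iff, aeval_dt]

end target

/-- **Piece PStart.** -/
theorem t_PStart : PStart := by
  intro R _ sep P hP hK hF V _ _ G C τ
  obtain ⟨n, ⟨e⟩⟩ := Finite.exists_equiv_fin V
  let S0 : Fam R (cone G e).edgeSet := fun K _ _ x => aeval x (kirch R (cone G e)) ≠ 0
  have hS0 : Q P S0 := by
    refine ⟨Empty, noRel R _, kirch R (cone G e), ?_, ?_⟩
    · intro K _ _ x
      exact ⟨fun h => ⟨fun k => k.elim, h⟩, fun h => h.2⟩
    · have := finiteType_away (kirch R (cone G e))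
      exact Pool.Agent.Q282.UK.clo_alg hP.toClo (awayE (kirch R (cone G e))) (hF n (cone G e))
  refine ⟨_, rels R G, dt R V, is_flag G C τ, ?_⟩
  refine hK.iso S0 (FlagFam R G C τ) (fun K _ _ x => ff G e R x) (fun K _ _ y => gg G e R y)
    ?_ ?_ ?_ ?_ ?_ ?_ hS0 (rels R G) (dt R V) (is_flag G C τ)
  · rintro (⟨i, j⟩ | ⟨a, _⟩)
    · refine ⟨lap G e R i j, 1, fun K _ _ x _ => ?_⟩
      rw [map_one, mul_one]
      exact ⟨one_ne_zero, rfl⟩
    · exact a.elim0
  · intro s
    refine ⟨gp e R (Quot.out s.1).1 (Quot.out s.1).2, 1, fun K _ _ y _ => ?_⟩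
    rw [map_one, mul_one]
    exact ⟨one_ne_zero, rfl⟩
  · intro K _ _ x hx
    rw [flag_iff, mt_ff]
    refine ⟨⟨fun i j => ?_, fun i j hij h => ?_⟩, hx⟩
    · change aeval x (lap G e R i j) = aeval x (lap G e R j i)
      rw [lap_symm]
    · change aeval x (lap G e R i j) = 0
      rw [lap, if_neg hij, map_neg, ev_not, map_zero, neg_zero]
      rw [cone_succ_succ, e.symm_apply_apply, e.symm_apply_apply]
      exact h
  · intro K _ _ y hy
    rw [flag_iff] at hy
    change aeval (gg G e R y) (kirch R (cone G e)) ≠ 0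
    rw [← mt_ff, ff_gg G e R hy.1]
    exact hy.2
  · intro K _ _ x _
    exact gg_ff G e R x
  · intro K _ _ y hy
    rw [flag_iff] at hy
    exact ff_gg G e R hy.1

end Run7.h232.GH
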